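import Pool.Agent.MP_e9a5a5_pr.Proof

set_option autoImplicit false

open Filter Topology

namespace Pool.Agent.Results.MP_e9a5a5_pr.FixedPointRelation

theorem result (F : ℝ → ℝ) (hmono : Monotone F) (hbot : Tendsto F atBot (𝓝 0))
    (htop : Tendsto F atTop (𝓝 1))
    (hfix : ∀ x : ℝ, (1 - 1 / 2 * (1 - (F (x - 2) + F x) / 2) ^ 2
      - 1 / 2 * (1 - (F x + F (x + 2)) / 2) ^ 2) ^ 2 = F x) :
    ∀ x : ℝ, F (x + 2) = 2 * Real.sqrt (F x) - F x :=
  Pool.Agent.MP_e9a5a5_pr.main F hmono hbot htop hfix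

end Pool.Agent.Results.MP_e9a5a5_pr.FixedPointRelation
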